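import Mathlib
import Pool.Graph.R_seed8.Helper816.Growth
import Pool.Graph.R_seed8.Helper816.Count
import Pool.Graph.R_seed8.Helper816.Residues
import Pool.Agent.KS6_21.W.Res
import Pool.Agent.KS6_21.W.AP

set_option autoImplicit false

namespace Pool.Agent.Results.MP_87dd11_al.ExtremalSemigroups

open Pool.Agent.KS6_21.W

/-- A numerical semigroup is a submonoid of `ℕ` with finite complement. -/
def IsNumericalSemigroup (Γ : AddSubmonoid ℕ) : Prop := ((Γ : Set ℕ)ᶜ).Finite

/-- `g 0 < g 1 < ... < g e` is the minimal generating set of `Γ`, listed increasingly. -/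
structure IsMinimalGenerators (Γ : AddSubmonoid ℕ) (e : ℕ) (g : Fin (e + 1) → ℕ) : Prop where
  strictMono : StrictMono g
  closure_eq : AddSubmonoid.closure (Set.range g) = Γ
  minimal : ∀ i, g i ∉ AddSubmonoid.closure (g '' {j | j ≠ i})

/-- The set of relations `R` generates the kernel congruence of the factorization map
`a ↦ ∑ i, a i * g i`. -/
def IsPresentation {e : ℕ} (g : Fin (e + 1) → ℕ)
    (R : Set ((Fin (e + 1) → ℕ) × (Fin (e + 1) → ℕ))) : Prop :=
  ∀ a b : Fin (e + 1) → ℕ,
    (addConGen (fun x y => (x, y) ∈ R)) a b ↔ ∑ i, a i * g i = ∑ i, b i * g i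

/-- The number `ρ` of minimal relations: the least cardinality of a presentation. -/
noncomputable def numRelations {e : ℕ} (g : Fin (e + 1) → ℕ) : ℕ∞ :=
  ⨅ R : {R : Set ((Fin (e + 1) → ℕ) × (Fin (e + 1) → ℕ)) // IsPresentation g R}, (R.1).encard

/-- The width: the largest minimal generator minus the smallest one. -/
def width {e : ℕ} (g : Fin (e + 1) → ℕ) : ℕ := g (Fin.last e) - g 0

/-- The greatest common divisor of the differences of the minimal generators. -/
def step {e : ℕ} (g : Fin (e + 1) → ℕ) : ℕ := Finset.univ.gcd (fun i => g i - g 0)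

/-- `𝒲(w)`: the supremum of `ρ(Γ)` over all numerical semigroups `Γ` of width `w`. -/
noncomputable def maxRelations (w : ℕ) : ℕ∞ :=
  sSup {r : ℕ∞ | ∃ (Γ : AddSubmonoid ℕ) (e : ℕ) (g : Fin (e + 1) → ℕ),
    IsNumericalSemigroup Γ ∧ IsMinimalGenerators Γ e g ∧ width g = w ∧ numRelations g = r}

/-- The supremum of `ρ(Γ)` over all numerical semigroups `Γ` of width `w` for which the
differences of the minimal generators have greatest common divisor `d`. -/
noncomputable def maxRelationsStep (w d : ℕ) : ℕ∞ :=
  sSup {r : ℕ∞ | ∃ (Γ : AddSubmonoid ℕ) (e : ℕ) (g : Fin (e + 1) → ℕ),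
    IsNumericalSemigroup Γ ∧ IsMinimalGenerators Γ e g ∧ width g = w ∧ step g = d ∧
      numRelations g = r}

/-! ### Arithmetic progressions -/

lemma ap_value {k d m : ℕ} (hk : 1 ≤ k) (hmk : k < m) (hd : 0 < d) (hmd : Nat.Coprime m d)
    {g : Fin (k + 1) → ℕ} (hg : ∀ i, g i = m + i * d) :
    numRelations g = (k.choose 2 + (k - (m - 1) % k) : ℕ) := by
  have hlt : (m - 1) % k < k := Nat.mod_lt _ hk
  have hdm := Nat.div_add_mod (m - 1) k
  obtain ⟨b, hb⟩ : ∃ b, b = (m - 1) % k + 1 := ⟨_, rfl⟩
  obtain ⟨a, ha⟩ : ∃ a, a = (m - 1) / k := ⟨_, rfl⟩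
  have ha1 : 1 ≤ a := by
    rw [ha]
    exact Nat.div_pos (by omega) hk
  have hm : m = a * k + b := by
    rw [hb, ha, mul_comm]
    omega
  have hkb : k - (m - 1) % k = k - b + 1 := by omega
  have hg' : g = fun (i : Fin (k + 1)) => m + (i : ℕ) * d := funext hg
  subst hg'
  rw [hkb]
  apply le_antisymm
  · obtain ⟨R, h1, h2⟩ := ap_upper (k := k) (a := a) (b := b) (d := d) (m := m) hk (by omega)
      (by omega) hm hd hmd
    exact (iInf_le _ ⟨R, fun x y => h2 x y⟩).trans h1
  · apply le_iInf
    rintro ⟨R, hR⟩
    exact ap_lower hk ha1 (by omega) (by omega) hm hd hmd R (fun x y => hR x y)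

lemma choose_half (k : ℕ) : 2 * (k + 1).choose 2 = k * (k + 1) := by
  rw [Nat.choose_two_right, Nat.add_sub_cancel, mul_comm (k + 1) k]
  exact Nat.mul_div_cancel' (Nat.even_mul_succ_self k).two_dvd

lemma choose_lt {k l : ℕ} (h : k < l) : (k + 1).choose 2 < (l + 1).choose 2 := by
  have h1 := choose_half k
  have h2 := choose_half l
  have h3 : k * (k + 1) < l * (l + 1) := by nlinarith
  omega

lemma choose_inj {k l : ℕ} (h : (k + 1).choose 2 = (l + 1).choose 2) : k = l := by
  rcases Nat.lt_trichotomy k l with h1 | h1 | h1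
  · have := choose_lt h1; omega
  · exact h1
  · have := choose_lt h1; omega

lemma ap_eq_iff {k m : ℕ} (hmk : k < m) (hk : 1 ≤ k) :
    k.choose 2 + (k - (m - 1) % k) = (k + 1).choose 2 ↔ m ≡ 1 [MOD k] := by
  have h1 : (k + 1).choose 2 = k.choose 2 + k := by
    rw [Nat.choose_succ_succ' k 1, Nat.choose_one_right, add_comm]
  have hlt : (m - 1) % k < k := Nat.mod_lt _ hk
  rw [h1]
  have h2 : m ≡ 1 [MOD k] ↔ k ∣ m - 1 := by
    rw [Nat.ModEq.comm]
    exact Nat.modEq_iff_dvd' (by omega)
  rw [h2, Nat.dvd_iff_mod_eq_zero]
  omega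

/-! ### The upper bound -/

lemma gen_pos {Γ : AddSubmonoid ℕ} {e : ℕ} {g : Fin (e + 1) → ℕ}
    (hmin : IsMinimalGenerators Γ e g) : 0 < g 0 := by
  rcases Nat.eq_zero_or_pos (g 0) with h | h
  · exfalso
    apply hmin.minimal 0
    rw [h]
    exact zero_mem _
  · exact h

lemma step_dvd {e : ℕ} (g : Fin (e + 1) → ℕ) (i : Fin (e + 1)) : step g ∣ g i - g 0 :=
  Finset.gcd_dvd (Finset.mem_univ i)

lemma width_pos {e : ℕ} {g : Fin (e + 1) → ℕ} (hg : StrictMono g) (he : 1 ≤ e) :
    0 < width g := by
  have hl0 : (0 : Fin (e + 1)) < Fin.last e := by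
    rw [Fin.lt_def]
    simp
    omega
  have := hg hl0
  unfold width
  omega

lemma step_pos {e : ℕ} {g : Fin (e + 1) → ℕ} (hg : StrictMono g) (he : 1 ≤ e) :
    0 < step g :=
  Nat.pos_of_dvd_of_pos (step_dvd g (Fin.last e)) (width_pos hg he)

lemma one_gen {Γ : AddSubmonoid ℕ} {g : Fin (0 + 1) → ℕ} (hΓ : IsNumericalSemigroup Γ)
    (hmin : IsMinimalGenerators Γ 0 g) : g 0 = 1 := by
  have h0 := gen_pos hmin
  have hdvd : ∀ n ∈ Γ, g 0 ∣ n := by
    intro n hn
    rw [← hmin.closure_eq] at hn
    induction hn using AddSubmonoid.closure_induction with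
    | mem x hx =>
      obtain ⟨i, rfl⟩ := hx
      have : i = 0 := by
        apply Fin.ext
        have := i.isLt
        simp only [Fin.val_zero]
        omega
      rw [this]
    | zero => exact dvd_zero _
    | add x y _ _ hx hy => exact dvd_add hx hy
  obtain ⟨N, hN⟩ := hΓ.bddAbove
  have h1 : ∀ n, N < n → n ∈ Γ := by
    intro n hn
    by_contra hcon
    have := hN hcon
    omega
  have h2 := hdvd _ (h1 (N + 1) (by omega))
  have h3 := hdvd _ (h1 (N + 2) (by omega))
  have h4 : g 0 ∣ 1 := by
    have := Nat.dvd_sub h3 h2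
    have h5 : N + 2 - (N + 1) = 1 := by omega
    rwa [h5] at this
  exact Nat.dvd_one.1 h4

lemma zero_rel {g : Fin (0 + 1) → ℕ} (h0 : 0 < g 0) : numRelations g = 0 := by
  have hP : IsPresentation g ∅ := by
    intro a b
    constructor
    · intro h
      have h1 : a = b := by
        have hle : addConGen (fun x y => (x, y) ∈
            (∅ : Set ((Fin (0 + 1) → ℕ) × (Fin (0 + 1) → ℕ)))) ≤ ⊥ := by
          rw [AddCon.addConGen_le]
          intro x y hxy
          simp at hxy
        exact hle h
      rw [h1]
    · intro h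
      have h1 : a = b := by
        funext i
        have h2 : i = 0 := by
          apply Fin.ext
          have := i.isLt
          simp only [Fin.val_zero]
          omega
        subst h2
        rw [Fin.sum_univ_one, Fin.sum_univ_one] at h
        exact Nat.eq_of_mul_eq_mul_right h0 h
      rw [h1]
      exact AddCon.refl _ _
  apply le_antisymm _ zero_le
  refine (iInf_le _ ⟨∅, hP⟩).trans ?_
  simp

theorem upper {e : ℕ} {g : Fin (e + 1) → ℕ} (hg : StrictMono g) (h0 : 0 < g 0) :
    ∃ r : ℕ, numRelations g = r ∧ 2 * r ≤ (width g / step g) ^ 2 + e ∧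
      e ≤ width g / step g := by
  have hpos : ∀ i, 0 < g i := fun i => lt_of_lt_of_le h0 (hg.monotone (Fin.zero_le i))
  rcases Nat.eq_zero_or_pos e with he | he
  · subst he
    exact ⟨0, zero_rel h0, Nat.zero_le _, Nat.zero_le _⟩
  · obtain ⟨B, R, hB, hR, hgen⟩ := Pool.Agent.Helper816.Count.count (g := g) he hpos
    obtain ⟨h1, h2⟩ := residuesStep he hg (step g) (step_dvd g) B hB
    have hP : IsPresentation g (R : Set ((Fin (e + 1) → ℕ) × (Fin (e + 1) → ℕ))) := hgen
    have h3 : numRelations g ≤ R.card := by
      refine (iInf_le _ ⟨_, hP⟩).trans ?_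
      rw [Set.encard_coe_eq_coe_finsetCard]
    obtain ⟨r, hr⟩ := ENat.ne_top_iff_exists.1 (ne_top_of_le_ne_top (ENat.natCast_ne_top _) h3)
    refine ⟨r, hr.symm, ?_, h2⟩
    rw [← hr] at h3
    have h4 : r ≤ R.card := by exact_mod_cast h3
    exact le_trans (by omega) h1

lemma spread {e : ℕ} {h : Fin (e + 1) → ℕ} (hh : StrictMono h) (n : ℕ) :
    ∀ i j : Fin (e + 1), (j : ℕ) = i + n → h i + n ≤ h j := by
  induction n with
  | zero =>
    intro i j hij
    have : i = j := Fin.ext (by omega)
    rw [this]
    exact le_rfl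
  | succ n ih =>
    intro i j hij
    have hj := j.isLt
    have h1 := ih i ⟨i + n, by omega⟩ rfl
    have h2 : h ⟨i + n, by omega⟩ < h j := hh (by rw [Fin.lt_def]; simp only; omega)
    omega

/-- A full set of residues is an arithmetic progression. -/
lemma progression {e : ℕ} {g : Fin (e + 1) → ℕ} (hg : StrictMono g) {d : ℕ}
    (hd : ∀ i, d ∣ g i - g 0) (he : width g / d = e) : ∀ i, g i = g 0 + i * d := by
  have hge : ∀ i, g 0 ≤ g i := fun i => hg.monotone (Fin.zero_le i)
  have hq : ∀ i, (g i - g 0) / d * d = g i - g 0 := fun i => Nat.div_mul_cancel (hd i)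
  have hh : StrictMono (fun i => (g i - g 0) / d) := by
    intro i j hij
    have h1 := hg hij
    have h2 := hq i
    have h3 := hq j
    have h4 := hge i
    show (g i - g 0) / d < (g j - g 0) / d
    by_contra hcon
    push Not at hcon
    have := Nat.mul_le_mul_right d hcon
    omega
  intro i
  have hi := i.isLt
  have h1 := spread hh i 0 i (by simp)
  have h2 := spread hh (e - i) i (Fin.last e) (by simp; omega)
  rw [Nat.sub_self, Nat.zero_div] at h1
  have h3 : (g (Fin.last e) - g 0) / d = e := he
  rw [h3] at h2
  have h4 : (g i - g 0) / d = i := by omega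
  have h5 := hq i
  rw [h4] at h5
  have h6 := hge i
  omega

/-- The smallest generator of an extremal semigroup is large and prime to the step. -/
lemma large {Γ : AddSubmonoid ℕ} {e : ℕ} {g : Fin (e + 1) → ℕ} {d : ℕ}
    (hΓ : IsNumericalSemigroup Γ) (hmin : IsMinimalGenerators Γ e g)
    (hap : ∀ i, g i = g 0 + i * d) : e < g 0 ∧ Nat.Coprime (g 0) d := by
  have h0 := gen_pos hmin
  constructor
  · by_contra hcon
    have hlt : g 0 < e + 1 := by omega
    apply hmin.minimal ⟨g 0, hlt⟩
    have h1 : g ⟨g 0, hlt⟩ = (1 + d) • g 0 := by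
      rw [hap, smul_eq_mul]
      show g 0 + g 0 * d = _
      ring
    rw [h1]
    apply AddSubmonoid.nsmul_mem
    apply AddSubmonoid.subset_closure
    refine ⟨0, ?_, rfl⟩
    show (0 : Fin (e + 1)) ≠ ⟨g 0, hlt⟩
    intro h
    have := congrArg Fin.val h
    simp at this
    omega
  · have hdvd : ∀ n ∈ Γ, Nat.gcd (g 0) d ∣ n := by
      intro n hn
      rw [← hmin.closure_eq] at hn
      induction hn using AddSubmonoid.closure_induction with
      | mem x hx =>
        obtain ⟨i, rfl⟩ := hx
        rw [hap i]
        exact dvd_add (Nat.gcd_dvd_left _ _) (dvd_mul_of_dvd_right (Nat.gcd_dvd_right _ _) _)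
      | zero => exact dvd_zero _
      | add x y _ _ hx hy => exact dvd_add hx hy
    obtain ⟨N, hN⟩ := hΓ.bddAbove
    have h1 : ∀ n, N < n → n ∈ Γ := by
      intro n hn
      by_contra hcon
      have := hN hcon
      omega
    have h2 := hdvd _ (h1 (N + 1) (by omega))
    have h3 := hdvd _ (h1 (N + 2) (by omega))
    have h4 : Nat.gcd (g 0) d ∣ 1 := by
      have := Nat.dvd_sub h3 h2
      have h5 : N + 2 - (N + 1) = 1 := by omega
      rwa [h5] at this
    exact Nat.dvd_one.1 h4

/-- The equality case for a given step. -/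
theorem equality {Γ : AddSubmonoid ℕ} {e : ℕ} {g : Fin (e + 1) → ℕ}
    (hΓ : IsNumericalSemigroup Γ) (hmin : IsMinimalGenerators Γ e g) :
    numRelations g = ((width g / step g + 1).choose 2 : ℕ) ↔
      (∀ i, g i = g 0 + i * step g) ∧ g 0 ≡ 1 [MOD width g / step g] := by
  have h0 := gen_pos hmin
  have hg := hmin.strictMono
  rcases Nat.eq_zero_or_pos e with he | he
  · subst he
    have hw : width g = 0 := by
      unfold width
      rw [show Fin.last 0 = 0 from rfl, Nat.sub_self]
    have h1 := one_gen hΓ hmin
    rw [zero_rel h0, hw, Nat.zero_div, h1]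
    constructor
    · intro _
      refine ⟨?_, Nat.ModEq.refl _⟩
      intro i
      have : i = 0 := by
        apply Fin.ext
        have := i.isLt
        simp only [Fin.val_zero]
        omega
      rw [this]
      simp [h1]
    · intro _
      rfl
  · have hd := step_pos hg he
    obtain ⟨r, hr, h2, h3⟩ := upper hg h0
    have val : (∀ i, g i = g 0 + i * step g) → e = width g / step g →
        (numRelations g = ((width g / step g + 1).choose 2 : ℕ) ↔
          g 0 ≡ 1 [MOD width g / step g]) := by
      intro hap heq
      obtain ⟨hl, hc⟩ := large hΓ hmin hap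
      rw [ap_value he hl hd hc hap, ← heq, ← ap_eq_iff hl he]
      exact_mod_cast Iff.rfl
    constructor
    · intro h
      have h4 : r = (width g / step g + 1).choose 2 := by
        rw [hr] at h
        exact_mod_cast h
      have h5 := choose_half (width g / step g)
      have heq : e = width g / step g := by
        apply le_antisymm h3
        rw [← h4] at h5
        have h6 : width g / step g * (width g / step g + 1) =
          (width g / step g) ^ 2 + width g / step g := by ring
        omega
      have hap := progression hg (step_dvd g) heq.symm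
      exact ⟨hap, (val hap heq).1 h⟩
    · rintro ⟨hap, hmod⟩
      have heq : e = width g / step g := by
        unfold width
        rw [hap (Fin.last e), Nat.add_sub_cancel_left, Nat.mul_div_cancel _ hd, Fin.val_last]
      exact (val hap heq).2 hmod

/-! ### The extremal semigroups -/

section Extremal

variable (k d : ℕ)

/-- The generators `k d + 1 + i d`. -/
def gens (i : Fin (k + 1)) : ℕ := k * d + 1 + i * d

variable {k d}

lemma gens_mono (hd : 0 < d) : StrictMono (gens k d) := by
  intro i j hij
  have h : (i : ℕ) < j := hij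
  have := Nat.mul_lt_mul_of_pos_right h hd
  unfold gens
  omega

lemma gens_cop : Nat.Coprime (k * d + 1) d := by
  rw [Nat.coprime_mul_right_add_left]
  exact Nat.coprime_one_left d

lemma gens_num (hk : 1 ≤ k) :
    IsNumericalSemigroup (AddSubmonoid.closure (Set.range (gens k d))) := by
  have hgcd : Nat.setGcd (Set.range (gens k d)) = 1 := by
    have h0 : Nat.setGcd (Set.range (gens k d)) ∣ gens k d ⟨0, by omega⟩ :=
      Nat.setGcd_dvd_of_mem ⟨_, rfl⟩
    have h1 : Nat.setGcd (Set.range (gens k d)) ∣ gens k d ⟨1, by omega⟩ :=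
      Nat.setGcd_dvd_of_mem ⟨_, rfl⟩
    have h2 : gens k d ⟨0, by omega⟩ = k * d + 1 := by simp [gens]
    have h3 : gens k d ⟨1, by omega⟩ = k * d + 1 + d := by simp [gens]
    rw [h2] at h0
    rw [h3] at h1
    have h4 := (Nat.dvd_add_right h0).1 h1
    have h5 := Nat.dvd_gcd h0 h4
    rw [gens_cop] at h5
    exact Nat.dvd_one.1 h5
  obtain ⟨N, hN⟩ := Nat.exists_mem_closure_of_ge (Set.range (gens k d))
  apply (Set.finite_lt_nat N).subset
  intro n hn
  by_contra hcon
  apply hn
  apply hN n
  · have : ¬ n < N := hcon
    omega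
  · rw [hgcd]
    exact one_dvd n

lemma gens_min (hd : 0 < d) :
    IsMinimalGenerators (AddSubmonoid.closure (Set.range (gens k d))) k (gens k d) where
  strictMono := gens_mono hd
  closure_eq := rfl
  minimal := by
    intro i hi
    have hbound : ∀ j : Fin (k + 1), (j : ℕ) * d ≤ k * d := fun j =>
      Nat.mul_le_mul_right d (by omega)
    have key : ∀ n ∈ AddSubmonoid.closure (gens k d '' {j | j ≠ i}),
        n = 0 ∨ (k * d + 1 ≤ n ∧ n ≠ gens k d i) := by
      intro n hn
      induction hn using AddSubmonoid.closure_induction with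
      | mem x hx =>
        obtain ⟨j, hj, rfl⟩ := hx
        right
        refine ⟨by unfold gens; omega, ?_⟩
        intro h
        exact hj ((gens_mono hd).injective h)
      | zero => exact Or.inl rfl
      | add x y _ _ hx hy =>
        rcases hx with hx | ⟨hx, hx'⟩
        · rw [hx, zero_add]; exact hy
        · rcases hy with hy | ⟨hy, hy'⟩
          · rw [hy, add_zero]; exact Or.inr ⟨hx, hx'⟩
          · right
            refine ⟨by omega, ?_⟩
            have := hbound i
            unfold gens
            omega
    have hlt := key _ hi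
    have hpos : 0 < gens k d i := by unfold gens; omega
    rcases hlt with h | ⟨_, h⟩
    · omega
    · exact h rfl

lemma gens_width : width (gens k d) = k * d := by
  unfold width gens
  simp

lemma gens_step (hk : 1 ≤ k) : step (gens k d) = d := by
  apply Nat.dvd_antisymm
  · have h := step_dvd (gens k d) ⟨1, by omega⟩
    have h1 : gens k d ⟨1, by omega⟩ - gens k d 0 = d := by
      simp [gens]
    rwa [h1] at h
  · unfold step
    apply Finset.dvd_gcd
    intro i _
    have h1 : gens k d i - gens k d 0 = i * d := by
      simp [gens]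
    rw [h1]
    exact dvd_mul_left _ _

lemma gens_value (hk : 1 ≤ k) (hd : 0 < d) :
    numRelations (gens k d) = ((k + 1).choose 2 : ℕ) := by
  have hkd : k ≤ k * d := Nat.le_mul_of_pos_right k hd
  rw [ap_value (g := gens k d) hk (by omega : k < k * d + 1) hd gens_cop (fun i => rfl)]
  have h := (ap_eq_iff (k := k) (m := k * d + 1) (by omega) hk).2 (by
    rw [Nat.ModEq.comm, Nat.modEq_iff_dvd' (by omega), Nat.add_sub_cancel]
    exact dvd_mul_right _ _)
  rw [h]

end Extremal

/-- The full classification.

1. `𝒲(w) = w (w + 1) / 2` for every `w`.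
2. For every `w > 0` and every divisor `d` of `w`, the maximum of `ρ` over the numerical
semigroups of width `w` whose generators have differences with greatest common divisor `d` is
`K (K + 1) / 2`, where `K = w / d`.
3. For every numerical semigroup with `e + 1` minimal generators, width `w` and step `d`, and
`K = w / d`: `e ≤ K` and `2 ρ ≤ K ^ 2 + e`; moreover `ρ = K (K + 1) / 2` if and only if the
minimal generators form the arithmetic progression `g, g + d, …, g + w` with `g ≡ 1` modulo `K`.
4. `ρ = w (w + 1) / 2` if and only if the minimal generators are `g, g + 1, …, g + w` with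
`g ≡ 1` modulo `w`. -/
theorem result :
    (∀ w : ℕ, maxRelations w = ((w + 1).choose 2 : ℕ)) ∧
    (∀ w d : ℕ, 0 < w → d ∣ w → maxRelationsStep w d = ((w / d + 1).choose 2 : ℕ)) ∧
    ∀ (Γ : AddSubmonoid ℕ) (e : ℕ) (g : Fin (e + 1) → ℕ),
      IsNumericalSemigroup Γ → IsMinimalGenerators Γ e g →
      (e ≤ width g / step g ∧
        2 * numRelations g ≤ (((width g / step g) ^ 2 + e : ℕ) : ℕ∞)) ∧
      (numRelations g = ((width g / step g + 1).choose 2 : ℕ) ↔
        (∀ i, g i = g 0 + i * step g) ∧ g 0 ≡ 1 [MOD width g / step g]) ∧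
      (numRelations g = ((width g + 1).choose 2 : ℕ) ↔
        (∀ i, g i = g 0 + i) ∧ g 0 ≡ 1 [MOD width g]) := by
  have bound : ∀ (Γ : AddSubmonoid ℕ) (e : ℕ) (g : Fin (e + 1) → ℕ),
      IsMinimalGenerators Γ e g →
      numRelations g ≤ ((width g / step g + 1).choose 2 : ℕ) := by
    intro Γ e g hmin
    obtain ⟨r, hr, h2, h3⟩ := upper hmin.strictMono (gen_pos hmin)
    rw [hr]
    have h4 := choose_half (width g / step g)
    have h5 : width g / step g * (width g / step g + 1) =
      (width g / step g) ^ 2 + width g / step g := by ring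
    have h6 : r ≤ (width g / step g + 1).choose 2 := by omega
    exact_mod_cast h6
  refine ⟨?_, ?_, ?_⟩
  · intro w
    apply le_antisymm
    · apply sSup_le
      rintro r ⟨Γ, e, g, _, hmin, hw, rfl⟩
      refine (bound Γ e g hmin).trans ?_
      have h1 : width g / step g ≤ w := by
        rw [← hw]
        exact Nat.div_le_self _ _
      have h2 : (width g / step g + 1).choose 2 ≤ (w + 1).choose 2 :=
        Nat.choose_le_choose 2 (by omega)
      exact_mod_cast h2
    · rcases Nat.eq_zero_or_pos w with hw | hw
      · subst hw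
        simp
      · refine le_sSup ⟨_, w, gens w 1, gens_num hw, gens_min one_pos, ?_, ?_⟩
        · rw [gens_width, mul_one]
        · exact gens_value hw one_pos
  · intro w d hw hdw
    obtain ⟨k, hk⟩ := hdw
    have hd : 0 < d := by
      rcases Nat.eq_zero_or_pos d with h | h
      · subst h
        rw [zero_mul] at hk
        omega
      · exact h
    have hk1 : 1 ≤ k := by
      rcases Nat.eq_zero_or_pos k with h | h
      · subst h
        rw [mul_zero] at hk
        omega
      · exact h
    have hwd : w / d = k := by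
      rw [hk, Nat.mul_div_cancel_left _ hd]
    rw [hwd]
    apply le_antisymm
    · apply sSup_le
      rintro r ⟨Γ, e, g, _, hmin, hw', hd', rfl⟩
      refine (bound Γ e g hmin).trans ?_
      rw [hw', hd', hwd]
    · refine le_sSup ⟨_, k, gens k d, gens_num hk1, gens_min hd, ?_, gens_step hk1, ?_⟩
      · rw [gens_width, hk, mul_comm]
      · exact gens_value hk1 hd
  · intro Γ e g hΓ hmin
    obtain ⟨r, hr, h2, h3⟩ := upper hmin.strictMono (gen_pos hmin)
    refine ⟨⟨h3, ?_⟩, equality hΓ hmin, ?_⟩
    · rw [hr]
      exact_mod_cast h2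
    · have hE := equality hΓ hmin
      have hB := bound Γ e g hmin
      constructor
      · intro h
        have h4 : width g / step g = width g := by
          rw [h] at hB
          have h5 : (width g + 1).choose 2 ≤ (width g / step g + 1).choose 2 := by
            exact_mod_cast hB
          rcases Nat.lt_or_ge (width g / step g) (width g) with h6 | h6
          · have := choose_lt h6
            omega
          · exact le_antisymm (Nat.div_le_self _ _) h6
        rw [h4] at hE
        obtain ⟨h5, h6⟩ := hE.1 h
        refine ⟨?_, h6⟩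
        rcases Nat.eq_zero_or_pos e with he | he
        · subst he
          intro i
          have : i = 0 := by
            apply Fin.ext
            have := i.isLt
            simp only [Fin.val_zero]
            omega
          rw [this]
          simp
        · have hw := width_pos hmin.strictMono he
          have hs := step_pos hmin.strictMono he
          have h7 : step g = 1 := by
            rcases Nat.lt_or_ge 1 (step g) with h8 | h8
            · have := Nat.div_lt_self hw h8
              omega
            · omega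
          intro i
          rw [h5 i, h7, mul_one]
      · rintro ⟨h5, h6⟩
        rcases Nat.eq_zero_or_pos e with he | he
        · subst he
          have hw : width g = 0 := by
            unfold width
            rw [show Fin.last 0 = 0 from rfl, Nat.sub_self]
          rw [zero_rel (gen_pos hmin), hw]
          rfl
        · have h7 : step g = 1 := by
            apply Nat.dvd_one.1
            have h8 := step_dvd g ⟨1, by omega⟩
            rw [h5 ⟨1, by omega⟩, Nat.add_sub_cancel_left] at h8
            exact h8
          rw [h7, Nat.div_one] at hE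
          exact hE.2 ⟨fun i => by rw [h5 i, mul_one], h6⟩

end Pool.Agent.Results.MP_87dd11_al.ExtremalSemigroups
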